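import Pool.Agent.Q217.KT.Main

set_option autoImplicit false

/-!
# Every `C`-trivial measure is `K`-trivial

Idea. Call a string `x` of length `n` rich for `a` if for at least half of the `2 ^ n` numbers
`l` in `[2 ^ n - 1, 2 ^ (n + 1) - 1)` (those identified with the strings of length `n`) some
string `y` of length `l` extending `x` has `C(y) ≤ n + a`. There are fewer than `2 ^ (a + 2)`
rich strings and they can be enumerated, so that they have `K(x) ≤ K(n) + 2 a + O(1)`. So for a
string `x` with a large difference `K(x) - K(n)`, the differences `C(y) - C(l)` are large on
average over `l`, for all extensions `y` of `x` of length `l`. Averaging over `μ` gives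
`E^K(n) - K(n) ≤ 4 max (E^C(l) - C(l)) + O(1)`.
-/

namespace Pool.Agent.Results.MP_616e01_lc.CTrivialKTrivial

open MeasureTheory Q217.KT

/-- Let `V` be an optimal plain machine (defining `C`) and `U` an optimal prefix-free machine
(defining `K`). Every `C`-trivial Borel probability measure on Cantor space is `K`-trivial. -/
theorem result (V U : List Bool →. List Bool) (hV : OptimalPlain V) (hU : OptimalPrefixFree U)
    (μ : Measure (ℕ → Bool)) (hμ : IsProbabilityMeasure μ) (h : TrivialMeasure V μ) :
    TrivialMeasure U μ :=
  main hV hU μ h

end Pool.Agent.Results.MP_616e01_lc.CTrivialKTrivial
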